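import Mathlib
import Pool.Agent.U927.TP.Main2

set_option autoImplicit false

/-!
# Families of systems on the thrice punctured line through an Euler system

Let `∇_q = d/dt - (b / t + c(q) / (t - 1))` be a family of systems of rank `r` on the thrice punctured
line, where `b` is diagonal with distinct rational entries and `c(q)` is a matrix polynomial of degree at
most `d` in the rational parameter `q` with `c(0) = 0`, for which no entry of `c'(0)` off the diagonal is
zero. Nothing else is assumed on `c`.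

As in `RationalParameters` the parameters with zero `p`-curvature modulo `p` are roots of resonance
polynomials of degree at most `d g`. Here these are not zero because of their linear terms, which are the
entries of `c'(0)` off the diagonal.
-/

namespace Pool.Agent.Results.MP_5e5ff1_ag.EulerPencils

open Finset

/-- The matrix `(t - 1) b + t c`, which is `t (t - 1)` times the matrix of the system. -/
noncomputable def systemMatrix {r p : ℕ} (b c : Matrix (Fin r) (Fin r) (ZMod p)) :
    Matrix (Fin r) (Fin r) (Polynomial (ZMod p)) :=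
  (Polynomial.X - 1 : Polynomial (ZMod p)) • b.map Polynomial.C +
    (Polynomial.X : Polynomial (ZMod p)) • c.map Polynomial.C

/-- If `Q` is the matrix of `(t (t - 1)) ^ k ∇ ^ k`, `∇ = d/dt - (b / t + c / (t - 1))`, this is the
matrix of `(t (t - 1)) ^ (k + 1) ∇ ^ (k + 1)`. -/
noncomputable def nextPower {r p : ℕ} (b c : Matrix (Fin r) (Fin r) (ZMod p)) (k : ℕ)
    (Q : Matrix (Fin r) (Fin r) (Polynomial (ZMod p))) :
    Matrix (Fin r) (Fin r) (Polynomial (ZMod p)) :=
  ((Polynomial.X * (Polynomial.X - 1) : Polynomial (ZMod p)) •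
      Q.map fun f => Polynomial.derivative f)
    - ((k : Polynomial (ZMod p)) * (2 * Polynomial.X - 1)) • Q - systemMatrix b c * Q

/-- The `p`-curvature `∇ ^ p` of `∇ = d/dt - (b / t + c / (t - 1))` over `F_p` is zero: `Q k` is the
matrix of `(t (t - 1)) ^ k ∇ ^ k`. -/
def CurvatureZero {r : ℕ} (p : ℕ) (b c : Matrix (Fin r) (Fin r) (ZMod p)) : Prop :=
  ∀ Q : ℕ → Matrix (Fin r) (Fin r) (Polynomial (ZMod p)), Q 0 = 1 →
    (∀ k : ℕ, Q (k + 1) = nextPower b c k (Q k)) → Q p = 0

/-- The reduction modulo `p` of the residue `b = diag(a 1, ..., a r) / n` at `0`. -/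
def residueZero {r : ℕ} (n : ℕ) (a : Fin r → ℤ) (p : ℕ) : Matrix (Fin r) (Fin r) (ZMod p) :=
  Matrix.diagonal fun i => (a i : ZMod p) * (n : ZMod p)⁻¹

/-- The reduction modulo `p` of the residue `c(q) = (∑_{l < d} q ^ (l + 1) c_l) / n` at `1`. -/
def residueOne {r d : ℕ} (n : ℕ) (c : Fin d → Matrix (Fin r) (Fin r) ℤ) (q : ℚ)
    (p : ℕ) : Matrix (Fin r) (Fin r) (ZMod p) :=
  Matrix.of fun i j => (∑ l : Fin d, ((q.num : ZMod p) * (q.den : ZMod p)⁻¹) ^ ((l : ℕ) + 1) *
    (c l i j : ZMod p)) * (n : ZMod p)⁻¹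

open Classical in
/-- The sum of `log p / p` over the primes `p ≤ Y` that do not divide the denominator of `q` and for
which the `p`-curvature of `∇_q` is not zero. -/
noncomputable def badSum {r d : ℕ} (n : ℕ) (a : Fin r → ℤ) (c : Fin d → Matrix (Fin r) (Fin r) ℤ)
    (q : ℚ) (Y : ℝ) : ℝ :=
  ∑ p ∈ Icc 1 ⌊Y⌋₊ with p.Prime ∧ ¬ p ∣ q.den ∧
    ¬ CurvatureZero p (residueZero n a p) (residueOne n c q p), Real.log p / p

/-- The average of `max (1, r / d, N / (d min (v, N - v)))` over the `v < N` coprime to `N`. -/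
noncomputable def average (r d N : ℕ) : ℝ :=
  (∑ v ∈ range N with N.Coprime v,
    max (max 1 ((r : ℝ) / d)) ((N : ℝ) / (d * (min v (N - v) : ℕ)))) / N.totient

/-- (1) Let `d ≥ 1` and `N ≥ 2`, and let `A` be the average of `max (1, r / d, N / (d min (v, N - v)))`
over the `v < N` coprime to `N`. Then `A ≥ (2 / d) log (N / 2)`.

(2) For every `θ` with `A θ > 1` there is `η > 0` with the following property. Let `b = diag(a) / n` be a
diagonal matrix of size `r` with distinct rational entries, two of which differ by a number with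
denominator `N`, and let `M` be an integral matrix without zero entries off the diagonal. Then there is
a constant `C` such that for all integral matrices `c_1 = M, c_2, ..., c_d` and all `X, Z ≥ 1` with
`H = X Z ≥ 2` at most `C H ^ θ` rational numbers `q` with numerator at most `X` and denominator at most
`Z` satisfy `∑ log p / p ≤ η log H`, where the sum is over the primes `p ≤ H ^ θ` not dividing the
denominator of `q` for which the `p`-curvature of the system `df = (b dt / t + c(q) dt / (t - 1)) f` is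
not zero, `c(q) = (q c_1 + q ^ 2 c_2 + ⋯ + q ^ d c_d) / n`. -/
theorem result (r d N : ℕ) (hd : 1 ≤ d) (hN : 2 ≤ N) :
    2 / d * Real.log (N / 2) ≤ average r d N ∧
    ∀ θ : ℝ, 1 < average r d N * θ → ∃ η : ℝ, 0 < η ∧
      ∀ (n : ℕ) (_ : 0 < n) (a : Fin r → ℤ) (_ : Function.Injective a)
        (M : Matrix (Fin r) (Fin r) ℤ) (_ : ∀ i j, i ≠ j → M i j ≠ 0) (i₁ i₂ : Fin r)
        (_ : (((a i₂ - a i₁ : ℤ) : ℚ) / n).den = N), ∃ C : ℝ,
        ∀ (c : Fin d → Matrix (Fin r) (Fin r) ℤ) (_ : c ⟨0, hd⟩ = M) (X Z : ℝ),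
          1 ≤ X → 1 ≤ Z → 2 ≤ X * Z →
          (Set.ncard {q : ℚ | |(q.num : ℝ)| ≤ X ∧ (q.den : ℝ) ≤ Z ∧
            badSum n a c q ((X * Z) ^ θ) ≤ η * Real.log (X * Z)} : ℝ) ≤
              C * (X * Z) ^ θ := by
  have hAv : average r d N = U927.PC.avg N (U927.PC.Gf r d N) := rfl
  refine ⟨?_, fun θ hθ => ?_⟩
  · rcases Nat.lt_or_ge N 3 with h | h
    · have h2 : N = 2 := by omega
      subst h2
      have h0 : 0 ≤ average r d 2 := by
        refine div_nonneg (sum_nonneg fun v _ => ?_) (Nat.cast_nonneg _)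
        exact zero_le_one.trans (U927.PC.Gf_ge_one r d 2 v)
      simpa using h0
    · rw [hAv]
      exact U927.PC.avg_ge r hd h
  · rw [hAv] at hθ
    exact U927.TP.final2 hd hN hθ

end Pool.Agent.Results.MP_5e5ff1_ag.EulerPencils
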