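import Pool.Agent.H320R.Sys

set_option autoImplicit false

open Finset Pool.Agent.W432.PC Pool.Agent.Y227.SS Pool.Agent.Y227.TP Pool.Agent.N858.PC
open Pool.Agent.H320R

/-!
# The thrice punctured line: matching of the exponents and Harvey's condition

The system `df = (b dt/t + c dt/(t - 1)) f` has any rank `r ≥ 2`, it may be reducible, and its
accessory parameters and its spectral type are arbitrary. We assume that the differences of the
exponents at each of the points `0`, `1`, `∞` have a common denominator without small prime factors;
nothing is assumed about the sums of exponents at different points.

If the `p`-curvatures vanish (or are nonzero only for a set of primes of small lower density), then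

* for any numbering `x, y, z` of the three points and for every common denominator `q` of the
  differences of the exponents at `z` (the order of the local monodromy at `z` in the projective group)
  the `q`-th powers of the eigenvalues of the local monodromy at `x` are up to their order, and up to a
  common factor, the inverses of those at `y` (`Matching`);
* the order of the local monodromy at each point in the projective group divides the least common
  multiple of the orders at the other two points (Harvey's condition, as for cyclic coverings branched
  at three points; `Harvey`);
* there are bounded integral relations of degree one, and bounded nonnegative relations, between the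
  exponents, and such relations persist after the deletion of any `r - 1` of the `3 r` exponents
  (`Structured`; for systems with any number of singular points this is
  `MP_ba03d2_ag.RelationsOfDegreeOne`).

If the monodromy group is finite and the denominators are rough, the group is abelian by Jordan's
theorem, so all this is predicted by the conjecture.

Proof. If only few classes, or primes, have nonzero `p`-curvatures, all the conjugates `a e`, `a` prime to
the common denominator, of the exponents are the weights of semistable (for irreducible systems: stable)
parabolic bundles of degree zero (starting library), so they satisfy the inequalities for line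
subbundles; by Gordan's alternative this gives the relations (`Pool.Agent.N858.PC.structured`). The
matching follows from the relations of degree one in which only one exponent at `x` and one exponent at
`y` occur, since the other exponents occur with sum of coefficients one.
-/

namespace Pool.Agent.Results.MP_5e5ff1_ag.HarveyCondition

universe u

/-- For every rank `r ≥ 2` there are `ε > 0` and `B` with the following property. Let `b` and `c` be
matrices of size `r` over a domain `R` of characteristic zero and of finite type over `ℤ`.

(1) Let the exponents `lam 0 l` at `0` (eigenvalues of `b`), `lam 1 l` at `1` (eigenvalues of `c`) and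
`lam 2 l` at infinity (eigenvalues of `-(b + c)`) be rational with a common denominator `N`, and assume
that the differences `lam x l - lam x l'` have a common denominator all of whose prime factors are
greater than `B` (`Rough B lam`). Then one of the following holds.
(a) `Related B lam`: the exponents at any two points match modulo the differences at the third point
(`Matching`), every common denominator of the differences at two of the points is a common denominator
at the third point (`Harvey`), and (`Structured`) after the deletion of less than `r` exponents there
remain an integral relation with coefficients of absolute value at most `B` and of sum one at each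
point, and a relation with natural coefficients of the same sum `M`, `1 ≤ M ≤ B`, at each point; and for
`x ≠ y` there is a permutation `σ` such that `lam x i` and `lam y (σ i)` are, alone at `x` and `y`, in a
relation of the first kind.
(b) For a proportion at least `ε` of the residue classes modulo `N` prime to `N` the `p`-curvature is
nonzero at every closed point of `Spec R` whose residue characteristic is a large prime in one of these
classes (`BadClasses`), and the `p`-curvatures do not vanish on a dense open subset (`¬ CondII`).
If the system is irreducible over every field containing `R`, then also `Spread B lam` holds (after the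
deletion of less than `r` exponents there remains a nonnegative relation with two exponents at one of the
points), or (b) holds for the closed points of `Spec R[1/g]` for some `g ≠ 0`.

(2) Let `R` be algebraic over `ℤ` (an order in a number field, with finitely many elements inverted).
If for arbitrarily large `X` there are fewer than `ε π(X)` primes `p ≤ X` such that the `p`-curvature is
nonzero at some closed point of residue characteristic `p` (`Few`), then `b`, `c` and `b + c` are
diagonalizable with rational eigenvalues (`DiagExps`), and if the differences of the exponents are rough
as in (1), then `Related B lam` holds, and `Spread B lam` if the system is irreducible. -/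
theorem result (r : ℕ) (hr : 2 ≤ r) :
    ∃ (ε : ℝ) (B : ℕ), 0 < ε ∧
      ∀ (R : Type u) [CommRing R] [IsDomain R] [CharZero R] [Algebra.FiniteType ℤ R]
        (b c : Matrix (Fin r) (Fin r) R),
        (∀ (lam : Fin 3 → Fin r → ℚ) (N : ℕ),
          HasExponents b (lam 0) → HasExponents c (lam 1) →
          HasExponents (b + c) (fun l => -lam 2 l) →
          0 < N → (∀ j l, ∃ m : ℤ, (N : ℚ) * lam j l = m) → Rough B lam →
          (Related B lam ∨ (BadClasses ![0, 1] ![b, c] N ε 1 ∧ ¬ CondII ![0, 1] ![b, c])) ∧
          (AbsIrreducible ![0, 1] ![b, c] → Spread B lam ∨
            (∃ g : R, g ≠ 0 ∧ BadClasses ![0, 1] ![b, c] N ε g) ∧ ¬ CondII ![0, 1] ![b, c])) ∧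
        (Algebra.IsAlgebraic ℤ R → Few (BadPt ![0, 1] ![b, c]) ε →
          ∃ lam : Fin 3 → Fin r → ℚ, DiagExps b (lam 0) ∧ DiagExps c (lam 1) ∧
            DiagExps (b + c) (fun l => -lam 2 l) ∧
            (Rough B lam → Related B lam ∧
              (AbsIrreducible ![0, 1] ![b, c] → Spread B lam))) := by
  obtain ⟨ε, B, hε, h⟩ := main_sys.{u} 2 r two_pos hr
  refine ⟨ε, B, hε, ?_⟩
  intro R _ _ _ _ b c
  have hα : ∀ i j : Fin 2, i ≠ j → IsUnit ((![0, 1] : Fin 2 → R) i - ![0, 1] j) := by
    intro i j hij
    fin_cases i <;> fin_cases j
    · exact absurd rfl hij
    · simp
    · simp
    · exact absurd rfl hij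
  have hsum : ∑ j, (![b, c] : Fin 2 → Matrix (Fin r) (Fin r) R) j = b + c := by simp
  let p : Fin 3 ≃ Option (Fin 2) :=
    { toFun := ![some 0, some 1, none]
      invFun := fun o => o.elim 2 (fun j => j.castSucc)
      left_inv := by decide
      right_inv := by decide }
  have hE : ∀ (lam : Fin 3 → Fin r → ℚ) x l,
      allExp (fun j : Fin 2 => lam j.castSucc) (fun l => -lam 2 l) (p x) l = lam x l := by
    intro lam x l
    fin_cases x
    · rfl
    · rfl
    · show - -lam 2 l = lam 2 l
      rw [neg_neg]
  have hfun : ∀ lam : Fin 3 → Fin r → ℚ,
      (fun x => allExp (fun j : Fin 2 => lam j.castSucc) (fun l => -lam 2 l) (p x)) = lam :=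
    fun lam => funext fun x => funext fun l => hE lam x l
  have hRel : ∀ lam : Fin 3 → Fin r → ℚ,
      Related B (allExp (fun j : Fin 2 => lam j.castSucc) (fun l => -lam 2 l)) → Related B lam := by
    intro lam h1
    have h2 := structured_comp p h1.2.2
    rw [hfun lam] at h2
    exact related_of_structured h2
  have hSpr : ∀ lam : Fin 3 → Fin r → ℚ,
      Spread B (allExp (fun j : Fin 2 => lam j.castSucc) (fun l => -lam 2 l)) → Spread B lam := by
    intro lam h1
    have h2 := spread_comp p h1
    rwa [hfun lam] at h2
  have hRough : ∀ lam : Fin 3 → Fin r → ℚ, Rough B lam →
      Rough B (allExp (fun j : Fin 2 => lam j.castSucc) (fun l => -lam 2 l)) :=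
    fun lam h1 => rough_comp p (hE lam) h1
  obtain ⟨h1, h2⟩ := h R ![0, 1] ![b, c] hα
  refine ⟨fun lam N hb hc hbc hN hNlam hR => ?_, fun halg hfew => ?_⟩
  · obtain ⟨h3, h4⟩ := h1 (fun j => lam j.castSucc) (fun l => -lam 2 l) N (by
      intro j
      fin_cases j
      · exact hb
      · exact hc) (by rw [hsum]; exact hbc) ⟨hN, fun j l => hNlam _ l, fun l => by
        obtain ⟨m, hm⟩ := hNlam 2 l
        exact ⟨-m, by push_cast; rw [← hm]; ring⟩⟩ (hRough lam hR)
    exact ⟨h3.imp (hRel lam) id, fun hirr => (h4 hirr).imp (hSpr lam) id⟩
  · obtain ⟨lam, phi, h3, h4, h5⟩ := h2 halg hfew
    rw [hsum] at h4
    let lam' : Fin 3 → Fin r → ℚ := ![lam 0, lam 1, fun l => -phi l]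
    have e1 : (fun j : Fin 2 => lam' j.castSucc) = lam := by
      funext j
      fin_cases j <;> rfl
    have e2 : (fun l => -lam' 2 l) = phi := by
      funext l
      show - -phi l = phi l
      rw [neg_neg]
    refine ⟨lam', h3 0, h3 1, by rw [e2]; exact h4, fun hR => ?_⟩
    have h6 := hRough lam' hR
    rw [e1, e2] at h6
    obtain ⟨h7, h8⟩ := h5 h6
    have h9 := hRel lam'
    have h10 := hSpr lam'
    rw [e1, e2] at h9 h10
    exact ⟨h9 h7, fun hirr => h10 (h8 hirr)⟩

end Pool.Agent.Results.MP_5e5ff1_ag.HarveyCondition
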