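import Mathlib
import Pool.Agent.U927.TP.Main
import Pool.Agent.U927.TP.Ex

set_option autoImplicit false

/-!
# One-parameter families of systems on the thrice punctured line

Let `∇_q = d/dt - (b / t + c(q) / (t - 1))` be a family of systems of rank `r` on the thrice punctured
line, where `b` is diagonal with distinct rational entries, `c(q)` is a matrix polynomial of degree `d`
in the rational parameter `q`, and the leading coefficient of `c` is a matrix `x yᵀ` of rank one
for which `yᵀ (s - b)⁻¹ x` has no zeros. All other coefficients of `c` are arbitrary.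

* The coefficients of the horizontal sections at `0`, divided by `1 - t`, satisfy the matrix recursion
  `(k + e - b) S_k = (k + e - b - c) S_(k-1)` with only two terms. If the `p`-curvature is zero, there
  is modulo `p` a section for every exponent `e`; then the parameter `q` modulo `p` is a root of a
  resonance polynomial, of degree `d g`, where `g` is the distance modulo `p` from `e` to the next
  exponent. Its leading coefficient is a product of values of `yᵀ (s - b)⁻¹ x`, so it is not zero.
* If a difference of exponents has denominator `N`, then `g / p` is close to `v / N`, where `v` is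
  determined by the class of `p` modulo `N`. The larger sieve, with the prime number theorem in
  arithmetic progressions for the average over the classes, gives the bound.

The exponents at `1` and `∞` may be constant: the last part of the theorem is a family of rank three
with constant exponents at all three points, in which `q` is an accessory parameter.
-/

namespace Pool.Agent.Results.MP_5e5ff1_ag.RationalParameters

open Finset

/-- The matrix `(t - 1) b + t c`, which is `t (t - 1)` times the matrix of the system. -/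
noncomputable def systemMatrix {r p : ℕ} (b c : Matrix (Fin r) (Fin r) (ZMod p)) :
    Matrix (Fin r) (Fin r) (Polynomial (ZMod p)) :=
  (Polynomial.X - 1 : Polynomial (ZMod p)) • b.map Polynomial.C +
    (Polynomial.X : Polynomial (ZMod p)) • c.map Polynomial.C

/-- If `Q` is the matrix of `(t (t - 1)) ^ k ∇ ^ k`, `∇ = d/dt - (b / t + c / (t - 1))`, this is the
matrix of `(t (t - 1)) ^ (k + 1) ∇ ^ (k + 1)`. -/
noncomputable def nextPower {r p : ℕ} (b c : Matrix (Fin r) (Fin r) (ZMod p)) (k : ℕ)
    (Q : Matrix (Fin r) (Fin r) (Polynomial (ZMod p))) :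
    Matrix (Fin r) (Fin r) (Polynomial (ZMod p)) :=
  ((Polynomial.X * (Polynomial.X - 1) : Polynomial (ZMod p)) •
      Q.map fun f => Polynomial.derivative f)
    - ((k : Polynomial (ZMod p)) * (2 * Polynomial.X - 1)) • Q - systemMatrix b c * Q

/-- The `p`-curvature `∇ ^ p` of `∇ = d/dt - (b / t + c / (t - 1))` over `F_p` is zero: `Q k` is the
matrix of `(t (t - 1)) ^ k ∇ ^ k`. -/
def CurvatureZero {r : ℕ} (p : ℕ) (b c : Matrix (Fin r) (Fin r) (ZMod p)) : Prop :=
  ∀ Q : ℕ → Matrix (Fin r) (Fin r) (Polynomial (ZMod p)), Q 0 = 1 →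
    (∀ k : ℕ, Q (k + 1) = nextPower b c k (Q k)) → Q p = 0

/-- The reduction modulo `p` of the residue `b = diag(a 1, ..., a r) / n` at `0`. -/
def residueZero {r : ℕ} (n : ℕ) (a : Fin r → ℤ) (p : ℕ) : Matrix (Fin r) (Fin r) (ZMod p) :=
  Matrix.diagonal fun i => (a i : ZMod p) * (n : ZMod p)⁻¹

/-- The reduction modulo `p` of the residue `c(q) = (∑_{l < d} q ^ l c_l + q ^ d x yᵀ) / n` at `1`. -/
def residueOne {r d : ℕ} (n : ℕ) (c : Fin d → Matrix (Fin r) (Fin r) ℤ) (x y : Fin r → ℤ) (q : ℚ)
    (p : ℕ) : Matrix (Fin r) (Fin r) (ZMod p) :=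
  Matrix.of fun i j => ((∑ l : Fin d, ((q.num : ZMod p) * (q.den : ZMod p)⁻¹) ^ (l : ℕ) *
    (c l i j : ZMod p)) + ((q.num : ZMod p) * (q.den : ZMod p)⁻¹) ^ d *
      ((x i : ZMod p) * (y j : ZMod p))) * (n : ZMod p)⁻¹

open Classical in
/-- The sum of `log p / p` over the primes `p ≤ Y` that do not divide the denominator of `q` and for
which the `p`-curvature of `∇_q` is not zero. -/
noncomputable def badSum {r d : ℕ} (n : ℕ) (a : Fin r → ℤ) (c : Fin d → Matrix (Fin r) (Fin r) ℤ)
    (x y : Fin r → ℤ) (q : ℚ) (Y : ℝ) : ℝ :=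
  ∑ p ∈ Icc 1 ⌊Y⌋₊ with p.Prime ∧ ¬ p ∣ q.den ∧
    ¬ CurvatureZero p (residueZero n a p) (residueOne n c x y q p), Real.log p / p

/-- The average of `max (1, r / d, N / (d min (v, N - v)))` over the `v < N` coprime to `N`. -/
noncomputable def average (r d N : ℕ) : ℝ :=
  (∑ v ∈ range N with N.Coprime v,
    max (max 1 ((r : ℝ) / d)) ((N : ℝ) / (d * (min v (N - v) : ℕ)))) / N.totient

/-- (1) Let `d ≥ 1` and `N ≥ 2`, and let `A` be the average of `max (1, r / d, N / (d min (v, N - v)))`
over the `v < N` coprime to `N`. Then `A ≥ (2 / d) log (N / 2)`.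

(2) For every `θ` with `A θ > 1` there is `η > 0` with the following property. Let `b = diag(a) / n` be a
diagonal matrix of size `r` with rational entries, let `x, y` be integral vectors with
`x_i y_i ∏_{j ≠ i} (a_i - a_j) = κ ≠ 0` for all `i`, and let the difference of some two entries of `b`
have denominator `N`. Then there is a constant `C` such that for all integral matrices
`c_0, ..., c_(d-1)` and all `X, Z ≥ 1` with `H = X Z ≥ 2` at most `C H ^ θ` rational numbers `q` with
numerator at most `X` and denominator at most `Z` satisfy `∑ log p / p ≤ η log H`, where the sum is over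
the primes `p ≤ H ^ θ` not dividing the denominator of `q` for which the `p`-curvature of the system
`df = (b dt / t + c(q) dt / (t - 1)) f` is not zero,
`c(q) = (c_0 + q c_1 + ⋯ + q ^ (d - 1) c_(d-1) + q ^ d x yᵀ) / n`.

(3) For `r = 3`, `d = 1`, `a = (0, 1, 2)` there are `c_0, x, y` as in (2), with `κ = 2`, such that the
characteristic polynomials of `n c(q)` and of `n (b + c(q))` do not depend on `q`: their roots are
`0, 1, 2` and `1, 2, 3`; for `q ≠ 0, 1` no entry of `c(q)` off the diagonal is zero. -/
theorem result :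
    (∀ r d N : ℕ, 1 ≤ d → 2 ≤ N →
      2 / d * Real.log (N / 2) ≤ average r d N ∧
      ∀ θ : ℝ, 1 < average r d N * θ → ∃ η : ℝ, 0 < η ∧
        ∀ (n : ℕ) (_ : 0 < n) (a x y : Fin r → ℤ) (κ : ℤ) (_ : κ ≠ 0)
          (_ : ∀ i, x i * y i * ∏ j ∈ univ.erase i, (a i - a j) = κ) (i₁ i₂ : Fin r)
          (_ : (((a i₂ - a i₁ : ℤ) : ℚ) / n).den = N), ∃ C : ℝ,
          ∀ (c : Fin d → Matrix (Fin r) (Fin r) ℤ) (X Z : ℝ), 1 ≤ X → 1 ≤ Z → 2 ≤ X * Z →
            (Set.ncard {q : ℚ | |(q.num : ℝ)| ≤ X ∧ (q.den : ℝ) ≤ Z ∧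
              badSum n a c x y q ((X * Z) ^ θ) ≤ η * Real.log (X * Z)} : ℝ) ≤
                C * (X * Z) ^ θ) ∧
    ∃ (a x y : Fin 3 → ℤ) (c : Matrix (Fin 3) (Fin 3) ℤ), a = ![0, 1, 2] ∧
      (∀ i, x i * y i * ∏ j ∈ univ.erase i, (a i - a j) = 2) ∧
      ∀ (q : ℚ) (M : Matrix (Fin 3) (Fin 3) ℚ),
        M = Matrix.of (fun i j => (c i j : ℚ) + q * ((x i : ℚ) * (y j : ℚ))) →
        M.charpoly = Polynomial.X * (Polynomial.X - 1) * (Polynomial.X - 2) ∧
        (Matrix.diagonal (fun i => (a i : ℚ)) + M).charpoly =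
          (Polynomial.X - 1) * (Polynomial.X - 2) * (Polynomial.X - 3) ∧
        (q ≠ 0 → q ≠ 1 → ∀ i j, i ≠ j → M i j ≠ 0) := by
  refine ⟨fun r d N hd hN => ⟨?_, fun θ hθ => ?_⟩, ?_⟩
  · have hAv : average r d N = U927.PC.avg N (U927.PC.Gf r d N) := rfl
    rcases Nat.lt_or_ge N 3 with h | h
    · have h2 : N = 2 := by omega
      subst h2
      have h0 : 0 ≤ average r d 2 := by
        refine div_nonneg (sum_nonneg fun v _ => ?_) (Nat.cast_nonneg _)
        exact zero_le_one.trans (U927.PC.Gf_ge_one r d 2 v)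
      simpa using h0
    · rw [hAv]
      exact U927.PC.avg_ge r hd h
  · exact U927.TP.final hd hN hθ
  · refine ⟨![0, 1, 2], ![1, -2, 1], ![1, 1, 1], !![1, -1, 0; 0, 2, 0; -1, -1, 0], rfl,
      U927.TP.ex_prod, fun q M hM => ?_⟩
    rw [U927.TP.ex_mat q] at hM
    subst hM
    exact ⟨U927.TP.ex_char q, U927.TP.ex_char' q, fun h0 h1 i j hij => U927.TP.ex_ne q h0 h1 i j hij⟩

end Pool.Agent.Results.MP_5e5ff1_ag.RationalParameters
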