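import Pool.Agent.R927.GT6
import Pool.Agent.U442.PC.Three
import Pool.Agent.U442.PC.Defs
import Pool.Agent.U442.PC.Prim

set_option autoImplicit false

open Finset Pool.Agent.W432.PC Pool.Agent.TH571.PCV Pool.Agent.R927 Pool.Agent.U442.PC

/-!
# Systems on the thrice punctured line: the index of rigidity and the density of the primes with
# nonvanishing `p`-curvature

Let `∇ = d/dt - (b / t + c / (t - 1))` be a system of rank `r` with rational exponents `λ_{x,l}` at the
points `x = 0, 1, ∞`. Nothing is assumed about irreducibility or accessory parameters. We show that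
**the lower natural density of the primes `p` such that the `p`-curvature is nonzero at every closed
point of residue characteristic `p` is at least `E / (3 r ^ 2)`** with

`E = ∑_x ∑_{i,j} γ(λ_{x,i} - λ_{x,j}) - r ^ 2 - (2 / r) ∑_{i,j,k} γ(λ_{0,i} + λ_{1,j} + λ_{∞,k})`,

where `γ(q)` is the product of the numbers `-p` for the primes `p` dividing the denominator of `q`,
divided by the square of the denominator. If the differences of exponents at the same point and the
sums of exponents, one for each point, have a prime denominator `N` or are integers, this is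
`(1 + 1 / N) (P - r ^ 2 - 2 R / r)`, where `P` is the number of ordered pairs of congruent exponents at
the three points and `R` the number of resonances (integral sums), so that for systems with
semisimple local monodromies and without resonances `P - r ^ 2` is the index of rigidity. So **the
density is at least the index of rigidity divided by `3 r ^ 2`**. The same holds up to
`5 r ^ 2 / d` if all prime factors of `N` are at least `d`.

Proof. The theorem `R927.gen_final` of the starting library (see `MP_0707f5_ag.PullbackAverages`) is an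
inequality of this kind for every twist of the system by a system of rank one; here it is averaged over the twists by the exponents at
one of the points. The average is symmetric in the three points.
-/

namespace Pool.Agent.Results.MP_5e5ff1_ag.RigidityDensity

universe u

/-- For all large `X` at least `δ π(X)` of the primes `p ≤ X` are such that the `p`-curvature of
`d/dt - (b / t + c / (t - 1))` is nonzero at every closed point of `Spec R` of residue
characteristic `p`. -/
def NonzeroDensity {R : Type u} [CommRing R] {r : ℕ} (b c : Matrix (Fin r) (Fin r) R) (δ : ℝ) :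
    Prop :=
  ∃ X₀ : ℕ, ∀ X : ℕ, X₀ ≤ X → δ * Nat.primeCounting X ≤ (Nat.card {p : ℕ // p ≤ X ∧ p.Prime ∧
    ∀ (𝔪 : Ideal R) [𝔪.IsMaximal], (p : R) ∈ 𝔪 → ¬ PCurvZeroAt ![0, 1] ![b, c] 𝔪} : ℝ)

/-- Let `∇ = d/dt - (b / t + c / (t - 1))` be a system of rank `r ≥ 1` over a domain `R` of
characteristic zero, of finite type over `ℤ`, with rational exponents `lam 0 l` at `0` (eigenvalues of
`b`), `lam 1 l` at `1` (eigenvalues of `c`) and `lam 2 l` at infinity (eigenvalues of `-(b + c)`). Let `N`
be a common denominator of the differences `lam x i - lam x j` and of the sums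
`lam 0 i + lam 1 j + lam 2 k`. For a function `F` on `ℚ` let `rig F lam` be
`∑ x, ∑ i, ∑ j, F (lam x i - lam x j) - r ^ 2 - 2 / r * ∑ F (lam 0 i + lam 1 j + lam 2 k)`, and let `gam q`
be the product of the numbers `-p` for the primes `p` dividing the denominator of `q`, divided by the
square of the denominator.

(1) There is a set `S` of residue classes modulo `N`, prime to `N`, with
`φ(N) * rig gam lam ≤ 3 r ^ 2 * #S`, such that the `p`-curvature of `∇` is nonzero at every closed point
of `Spec R` whose residue characteristic is a large prime in one of these classes.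

(2) If `3 r ^ 2 * δ < rig gam lam`, then for all large `X` at least `δ π(X)` of the primes `p ≤ X` have
the property that the `p`-curvature is nonzero at every closed point of residue characteristic `p`.

(3) If `0 < rig gam lam`, the `p`-curvatures do not vanish on a dense open subset of `Spec R`.

(4) If `N` is a prime number, `rig gam lam = (1 + 1 / N) * (P - r ^ 2 - 2 / r * R)`, where `P`
(`allPairs`) is the number of ordered pairs of exponents at the same point, for all three points, which
differ by an integer, and `R` (`allSums`) is the number of integers among the sums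
`lam 0 i + lam 1 j + lam 2 k`. If all prime factors of `N` are at least `d`, then
`P - r ^ 2 - 2 / r * R - 5 r ^ 2 / d ≤ rig gam lam`. -/
theorem result {R : Type u} [CommRing R] [IsDomain R] [CharZero R] [Algebra.FiniteType ℤ R] {r : ℕ}
    (hr : 0 < r) (b c : Matrix (Fin r) (Fin r) R) (lam : Fin 3 → Fin r → ℚ)
    (h0 : HasExponents b (lam 0)) (h1 : HasExponents c (lam 1))
    (h2 : HasExponents (b + c) (fun l => -lam 2 l)) (N : ℕ) (hN : 0 < N)
    (hd : ∀ x i j, ∃ m : ℤ, (N : ℚ) * (lam x i - lam x j) = m)
    (hs : ∀ i j k, ∃ m : ℤ, (N : ℚ) * (lam 0 i + lam 1 j + lam 2 k) = m) :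
    (∃ S : Finset (ZMod N)ˣ, (N.totient : ℚ) * rig gam lam ≤ 3 * (r : ℚ) ^ 2 * S.card ∧
      NonzeroFor (![0, 1] : Fin 2 → R) ![b, c] N S) ∧
    (∀ δ : ℝ, 3 * (r : ℝ) ^ 2 * δ < (rig gam lam : ℚ) → NonzeroDensity b c δ) ∧
    (0 < rig gam lam → ¬ CondII (![0, 1] : Fin 2 → R) ![b, c]) ∧
    (N.Prime → rig gam lam =
      (1 + 1 / (N : ℚ)) * ((allPairs lam : ℚ) - (r : ℚ) ^ 2 - 2 / (r : ℚ) * allSums lam)) ∧
    (∀ d : ℕ, Rough N d →
      (allPairs lam : ℚ) - (r : ℚ) ^ 2 - 2 / (r : ℚ) * allSums lam - 5 * (r : ℚ) ^ 2 / d ≤
        rig gam lam) := by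
  have hα : ∀ i j : Fin 2, i ≠ j → IsUnit ((![0, 1] : Fin 2 → R) i - ![0, 1] j) := by
    intro i j hij
    fin_cases i <;> fin_cases j
    · exact absurd rfl hij
    · simp
    · simp
    · exact absurd rfl hij
  have hlam : ∀ j : Fin 2, HasExponents ((![b, c] : Fin 2 → Matrix (Fin r) (Fin r) R) j)
      (fun l => lam j.castSucc l) := by
    intro j
    fin_cases j
    · exact h0
    · exact h1
  have hphi : HasExponents (∑ j, (![b, c] : Fin 2 → Matrix (Fin r) (Fin r) R) j)
      (fun l => -lam 2 l) := by
    rw [Fin.sum_univ_two]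
    exact h2
  obtain ⟨k, hk⟩ := exists_twist hr gam gam_neg lam
  have c0 : Fin.castSucc (0 : Fin 2) = 0 := by decide
  have c1 : Fin.castSucc (1 : Fin 2) = 1 := by decide
  obtain ⟨S, hS', hP⟩ := gen_final _ hα _ _ _ hlam hphi (0 : Fin 2)
    (fun j => if j = 0 then lam 0 ⟨0, hr⟩ else lam 1 k) N hN (by
      intro j l
      fin_cases j
      · exact hd 0 l ⟨0, hr⟩
      · exact hd 1 l k) (by
      intro l
      obtain ⟨m, hm⟩ := hs ⟨0, hr⟩ k l
      refine ⟨-m, ?_⟩
      rw [Fin.sum_univ_two, if_pos rfl, if_neg (by decide)]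
      push_cast
      rw [← hm]
      ring)
  have hφQ : (0 : ℚ) < N.totient := by exact_mod_cast Nat.totient_pos.2 hN
  have hS : (N.totient : ℚ) * rig gam lam ≤ 3 * (r : ℚ) ^ 2 * S.card :=
    (mul_le_mul_of_nonneg_left (hk _) hφQ.le).trans hS'
  refine ⟨⟨S, hS, hP⟩, fun δ hδ => ?_, fun h => ?_, fun hNp => ?_, fun d hd' => ?_⟩
  · obtain ⟨P₀, hP⟩ := hP
    have hrR : (0 : ℝ) < 3 * (r : ℝ) ^ 2 := by
      have : (0 : ℝ) < r := by exact_mod_cast hr
      positivity
    have hφ : (0 : ℝ) < N.totient := by exact_mod_cast hφQ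
    have hSR : (N.totient : ℝ) * ((rig gam lam : ℚ) : ℝ) ≤ 3 * (r : ℝ) ^ 2 * S.card := by
      exact_mod_cast hS
    exact lower_dens hN S P₀ (fun p => ∀ (𝔪 : Ideal R) [𝔪.IsMaximal], (p : R) ∈ 𝔪 →
      ¬ PCurvZeroAt ![0, 1] ![b, c] 𝔪)
      (fun p hp hpP ⟨v, hv, hpv⟩ 𝔪 h𝔪 hpm => hP p hp hpP v hv hpv 𝔪 hpm) (δ := δ) (by
        have h3 : 3 * (r : ℝ) ^ 2 * (δ * N.totient) < 3 * (r : ℝ) ^ 2 * S.card := by
          calc 3 * (r : ℝ) ^ 2 * (δ * N.totient) = (3 * (r : ℝ) ^ 2 * δ) * N.totient := by ring
            _ < ((rig gam lam : ℚ) : ℝ) * N.totient := mul_lt_mul_of_pos_right hδ hφ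
            _ = N.totient * ((rig gam lam : ℚ) : ℝ) := by ring
            _ ≤ _ := hSR
        exact lt_of_mul_lt_mul_left h3 hrR.le)
  · have hSne : S.Nonempty := by
      rw [← card_pos]
      by_contra hcon
      have hc0 : S.card = 0 := by omega
      rw [hc0, Nat.cast_zero, mul_zero] at hS
      exact absurd hS (not_le.2 (mul_pos hφQ h))
    exact NonzeroFor.not_condII hN hP hSne
  · rw [rig_prime hr hNp hd hs, rig_int1]
  · have h := rig_rough hr hN hd'.1 hd'.2 hd hs
    rw [rig_int1] at h
    exact h

end Pool.Agent.Results.MP_5e5ff1_ag.RigidityDensity
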